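import Pool.Agent.H23.Adic2

set_option autoImplicit false

open Finset

namespace Pool.Agent.Results.MP_cc6759_lc.Half

variable {R : Type} [CommRing R]

/-- The π-adic number with digit sequence `s` equals `f / g`, with `g` invertible modulo `π`. -/
def IsFrac (π : R) (s : ℕ → ℕ) (f g : R) : Prop :=
  (∃ h, π ∣ g * h - 1) ∧ ∀ m, π ^ m ∣ g * (∑ i ∈ range m, (s i : R) * π ^ i) - f

/-- π-adic complexity of an infinite sequence for the size function `φ` (`⊤` if no AFSR). -/
noncomputable def lamInf (π : R) (φ : R → ℝ) (s : ℕ → ℕ) : EReal :=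
  ⨅ (f : R) (g : R) (_ : IsFrac π s f g), (max (φ f) (φ g) : ℝ)

/-- π-adic complexity of a finite sequence: minimum over all infinite extensions over `S`. -/
noncomputable def lamFin (N : ℕ) (π : R) (φ : R → ℝ) {n : ℕ} (a : Fin n → Fin N) : ℝ :=
  (⨅ (s : ℕ → ℕ) (_ : ∀ i, s i < N) (_ : ∀ i : Fin n, s i = a i), lamInf π φ s).toReal

/-- The average over all `N ^ n` finite sequences of length `n`. -/
noncomputable def E (N : ℕ) (π : R) (φ : R → ℝ) (n : ℕ) : ℝ :=
  (∑ a : Fin n → Fin N, lamFin N π φ a) / N ^ n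

/-- The size function of case (i); `b` is the basis `1, π`. -/
noncomputable def phi1 (N : ℕ) (b : Module.Basis (Fin 2) ℤ R) (x : R) : ℝ :=
  Real.logb N ((b.repr x 0) ^ 2 + N * (b.repr x 1) ^ 2 : ℤ)

/-- The size function of case (ii); `b` is the basis `1, π, …, π ^ (d - 1)`. -/
noncomputable def phi2 (N : ℕ) {d : ℕ} (b : Module.Basis (Fin d) ℤ R) (x : R) : ℝ :=
  ⨆ i : {i : Fin d // b.repr x i ≠ 0}, d * Real.logb N (|b.repr x i| : ℤ) + (i.1 : ℕ)

open Pool.Agent.H23.Adic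

theorem gen [IsDomain R] {d : ℕ} (b : Module.Basis (Fin d) ℤ R) (hd : 1 ≤ d) {π : R}
    (hb : ∀ i, b i = π ^ i.1) {e : ℤ} {N : ℕ} (hN : 2 ≤ N) (he : e.natAbs = N) (h : π ^ d = e)
    (φ : R → ℝ) (h1 : ∀ x, d * Real.logb N (nm b x) ≤ φ x)
    (h2 : ∀ x, φ x ≤ d * Real.logb N (nm b x) + d) : ∃ C : ℝ, ∀ n, |E N π φ n - n / 2| ≤ C := by
  obtain ⟨C, hC⟩ := avg2 b hd
  obtain ⟨a1, a2, a3, a4⟩ := digits b hd hb hN he h
  have d0 : (0 : ℝ) ≤ d := d.cast_nonneg
  refine ⟨C + d, fun n => hC N n π _ d hN a1 a2 a3 a4 (fun a t ht => ?_)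
    fun a s f g s1 s2 s3 s4 => ?_⟩
  · simp only [lamInf, iInf_lt_iff, EReal.coe_lt_coe_iff, max_lt_iff] at ht
    obtain ⟨s, -, s2, f, g, hf, h3, h4⟩ := ht
    refine ⟨s, f, g, s2, hf.1, hf.2 n, ?_⟩
    rcases max_choice (nm b f) (nm b g) with c | c <;> rw [c] <;> linarith [h1 f, h1 g]
  · refine iInf_le_of_le s (iInf_le_of_le s1 (iInf_le_of_le s2 (iInf_le_of_le f (iInf_le_of_le g
      (iInf_le_of_le ⟨s3, s4⟩ (EReal.coe_le_coe_iff.2 (max_le ?_ ?_)))))))
    · linarith [h2 f, mul_le_mul_of_nonneg_left (lg_mono hN (le_max_left (nm b f) (nm b g))) d0]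
    · linarith [h2 g, mul_le_mul_of_nonneg_left (lg_mono hN (le_max_right (nm b f) (nm b g))) d0]

theorem result :
    (∀ (N : ℕ) (R : Type) [CommRing R] [IsDomain R] (π : R) (b : Module.Basis (Fin 2) ℤ R),
      2 ≤ N → (∀ i, b i = π ^ i.1) → π ^ 2 = -N →
      ∃ C : ℝ, ∀ n, |E N π (phi1 N b) n - n / 2| ≤ C) ∧
    (∀ (N d : ℕ) (R : Type) [CommRing R] [IsDomain R] (π : R) (b : Module.Basis (Fin d) ℤ R),
      2 ≤ N → 1 ≤ d → (∀ i, b i = π ^ i.1) → π ^ d = N →
      ∃ C : ℝ, ∀ n, |E N π (phi2 N b) n - n / 2| ≤ C) := by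
  refine ⟨fun N R _ _ π b hN hb h => ?_, fun N d R _ _ π b hN hd hb h => ?_⟩
  · have e : ∀ x, phi1 N b x = Real.logb N
        ((b.repr x 0).natAbs ^ 2 + N * (b.repr x 1).natAbs ^ 2 : ℕ) := fun x => by
      simp [phi1]
    refine gen b (by omega) hb (e := -N) hN (by simp) (by simpa using h) _ (fun x => ?_) fun x => ?_
    · rw [e, ← Real.logb_pow, ← Nat.cast_pow]
      refine lg_mono hN ?_
      obtain ⟨i, -, hi⟩ := exists_mem_eq_sup univ univ_nonempty fun i => (b.repr x i).natAbs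
      rw [nm, hi]
      fin_cases i
      · simp
      · simp only [Fin.mk_one, Fin.isValue]; nlinarith [sq_nonneg (b.repr x 1).natAbs]
    · rcases (nm b x).eq_zero_or_pos with z | z
      · have := le_nm (b := b) x 0
        have := le_nm (b := b) x 1
        rw [e, z, show (b.repr x 0).natAbs = 0 by omega, show (b.repr x 1).natAbs = 0 by omega]
        simp
      rw [e, ← Real.logb_pow, ← lg_pow hN 2, ← Real.logb_mul (by positivity) (by positivity),
        ← Nat.cast_pow, ← Nat.cast_mul]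
      refine lg_mono hN ?_
      have h0 := Nat.pow_le_pow_left (le_nm (b := b) x 0) 2
      have h1 := Nat.mul_le_mul_left N (Nat.pow_le_pow_left (le_nm (b := b) x 1) 2)
      have : N + 1 ≤ N ^ 2 := by nlinarith
      nlinarith [Nat.mul_le_mul_left (nm b x ^ 2) this]
  · have d0 : (0 : ℝ) ≤ d := d.cast_nonneg
    have e : ∀ m : ℤ, ((|m| : ℤ) : ℝ) = (m.natAbs : ℕ) := fun m => by simp
    refine gen b hd hb (e := N) hN (by simp) (by simpa using h) _ (fun x => ?_) fun x => ?_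
    · have : Nonempty (Fin d) := ⟨⟨0, hd⟩⟩
      obtain ⟨i, -, hi⟩ := exists_mem_eq_sup univ univ_nonempty fun i => (b.repr x i).natAbs
      rw [nm, hi]
      by_cases z : b.repr x i = 0
      · rw [z]
        simp only [Int.natAbs_zero, Nat.cast_zero, Real.logb_zero, mul_zero]
        refine Real.iSup_nonneg fun j => add_nonneg (mul_nonneg d0 ?_) (Nat.cast_nonneg _)
        rw [e]
        simpa using lg_mono hN (Nat.zero_le (b.repr x j).natAbs)
      · refine le_trans ?_ (le_ciSup (Finite.bddAbove_range _) ⟨i, z⟩)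
        rw [e]
        exact le_add_of_nonneg_right (Nat.cast_nonneg _)
    · have := lg_mono hN (Nat.zero_le (nm b x))
      simp only [Nat.cast_zero, Real.logb_zero] at this
      refine Real.iSup_le (fun i => add_le_add ?_ (by exact_mod_cast i.1.2.le))
        (add_nonneg (mul_nonneg d0 this) d0)
      rw [e]
      exact mul_le_mul_of_nonneg_left (lg_mono hN (le_nm x i.1)) d0

end Pool.Agent.Results.MP_cc6759_lc.Half
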